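import Pool.Agent.Y377.IR.Basic
import Pool.Agent.Y587.IL.Der

/-!
Project IR, statement DER: infinitesimal symmetries of linear recurrences.
-/

set_option autoImplicit false

namespace Pool.Agent.Y987.IR

open Pool.Agent.Y377.EL Pool.Agent.Y377.IL Pool.Agent.Y377.IR Pool.Agent.Y587.IL Polynomial

variable {K : Type} [Field K] [Algebra ℂ K]

/-- the conjugate of a derivation by an automorphism -/
noncomputable def conj (γ : K ≃ₐ[ℂ] K) (δ : Derivation ℂ K K) : Derivation ℂ K K :=
  Derivation.mk' ((γ : K →ₐ[ℂ] K).toLinearMap ∘ₗ (δ : K →ₗ[ℂ] K) ∘ₗ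
    (γ.symm : K →ₐ[ℂ] K).toLinearMap) (by
    intro a b
    show γ (δ (γ.symm (a * b))) = a • γ (δ (γ.symm b)) + b • γ (δ (γ.symm a))
    rw [map_mul, δ.leibniz, map_add, smul_eq_mul, smul_eq_mul, map_mul, map_mul,
      γ.apply_symm_apply, γ.apply_symm_apply, smul_eq_mul, smul_eq_mul])

theorem conj_apply (γ : K ≃ₐ[ℂ] K) (δ : Derivation ℂ K K) (a : K) :
    conj γ δ a = γ (δ (γ.symm a)) := rfl

/-- **infinitesimal symmetries** -/
theorem t_DER : Pool.Agent.Y377.IR.G_DER := by
  intro K _ _ Γ hC R hR n X Y hF x hx hxR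
  by_contra hcon
  push Not at hcon
  have hch : CharZero K := charZero_of_injective_algebraMap (algebraMap ℂ K).injective
  -- a derivation
  have htr : Transcendental (frac R) x := by
    intro ha
    apply hxR
    refine alg_trans (S := (frac R).toSubalgebra) (fun r hr => le_frac R hr)
      (fun y hy => frac_alg hy) ?_
    exact ha
  obtain ⟨δL, hδL⟩ := Pool.Agent.TH143.der_of_transcendental htr
  obtain ⟨δ0, hδ0⟩ : ∃ δ0 : Derivation ℂ K K, δ0 = δL.restrictScalars ℂ := ⟨_, rfl⟩
  have hδ0x : δ0 x = 1 := by rw [hδ0]; exact hδL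
  have hδ0R : ∀ r ∈ R, δ0 r = 0 := by
    intro r hr
    rw [hδ0]
    exact δL.map_algebraMap (⟨r, le_frac R hr⟩ : frac R)
  have hYX : Y * X = 1 := mul_eq_one_comm.1 hF.inv
  -- the space of the logarithmic derivatives
  obtain ⟨lg, hlg⟩ : ∃ lg : Derivation ℂ K K → (Fin n × Fin n → K),
      lg = fun δ p => (Y * X.map δ) p.1 p.2 := ⟨_, rfl⟩
  have hlg_add : ∀ δ δ' : Derivation ℂ K K, lg (δ + δ') = lg δ + lg δ' := by
    intro δ δ'
    funext p
    rw [hlg]
    simp only [Pi.add_apply, Matrix.mul_apply, Matrix.map_apply, Derivation.add_apply, mul_add,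
      Finset.sum_add_distrib]
  have hlg_smul : ∀ (k : K) (δ : Derivation ℂ K K), lg (k • δ) = k • lg δ := by
    intro k δ
    funext p
    rw [hlg]
    simp only [Pi.smul_apply, Matrix.mul_apply, Matrix.map_apply, Derivation.smul_apply,
      smul_eq_mul, Finset.mul_sum]
    exact Finset.sum_congr rfl fun l _ => by ring
  have hlg_zero : lg 0 = 0 := by
    funext p
    rw [hlg]
    simp only [Pi.zero_apply, Matrix.mul_apply, Matrix.map_apply, Derivation.zero_apply, mul_zero,
      Finset.sum_const_zero]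
  let H : Submodule K (Fin n × Fin n → K) :=
    { carrier := {f | ∃ δ : Derivation ℂ K K, (∀ r ∈ R, δ r = 0) ∧ f = lg δ}
      add_mem' := by
        rintro f g ⟨δ, h1, h2⟩ ⟨δ', h1', h2'⟩
        refine ⟨δ + δ', fun r hr => ?_, ?_⟩
        · rw [Derivation.add_apply, h1 r hr, h1' r hr, add_zero]
        · rw [h2, h2', hlg_add]
      zero_mem' := ⟨0, fun r _ => rfl, hlg_zero.symm⟩
      smul_mem' := by
        rintro k f ⟨δ, h1, h2⟩
        refine ⟨k • δ, fun r hr => ?_, ?_⟩
        · rw [Derivation.smul_apply, h1 r hr, smul_zero]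
        · rw [h2, hlg_smul] }
  have hstab : ∀ γ ∈ Γ, ∀ f ∈ H, (fun i => γ (f i)) ∈ H := by
    rintro γ hγ f ⟨δ, h1, h2⟩
    refine ⟨conj γ δ, fun r hr => ?_, ?_⟩
    · rw [conj_apply, h1 _ (StabG.symm hR hγ hr), map_zero]
    · obtain ⟨M, hM⟩ : ∃ M : Matrix (Fin n) (Fin n) K, M = X.map γ.symm * Y := ⟨_, rfl⟩
      have hMR : ∀ i j, M i j ∈ R := by
        intro i j
        rw [hM, Matrix.mul_apply]
        exact hF.coc _ (Γ.inv_mem hγ) i j
      have hMδ : M.map δ = 0 := by
        ext i j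
        rw [Matrix.map_apply, h1 _ (hMR i j), Matrix.zero_apply]
      have hMX : X.map γ.symm = M * X := by
        rw [hM, mul_assoc, hYX, mul_one]
      have e1 : X.map (conj γ δ) = ((X.map γ.symm).map δ).map γ := by
        ext i j
        simp only [Matrix.map_apply, conj_apply]
      have e2 : (X.map γ.symm).map δ = M * X.map δ := by
        rw [hMX, der_mul, hMδ, zero_mul, zero_add]
      have e3 : ∀ A B : Matrix (Fin n) (Fin n) K, (A * B).map γ = A.map γ * B.map γ := by
        intro A B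
        ext i j
        simp only [Matrix.map_apply, Matrix.mul_apply, map_sum, map_mul]
      have e4 : (X.map γ.symm).map γ = X := by
        ext i j
        simp only [Matrix.map_apply, γ.apply_symm_apply]
      have e5 : (Y * X.map δ).map γ = Y * X.map (conj γ δ) := by
        rw [e1, e2, hM, e3, e3, e3, e4, ← mul_assoc, ← mul_assoc, hYX, one_mul]
      funext p
      rw [h2, hlg]
      exact congrFun (congrFun e5 p.1) p.2
  have hdesc := descentG hC H (fun f _ => Set.toFinite _) hstab (lg δ0) ⟨δ0, hδ0R, rfl⟩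
  -- span induction
  have hspan : ∀ f ∈ Submodule.span K {g | g ∈ H ∧ ∀ i, ∃ c : ℂ, g i = algebraMap ℂ K c},
      ∃ δ : Derivation ℂ K K, (∀ r ∈ R, δ r = 0) ∧ f = lg δ ∧ δ x = 0 := by
    intro f hf
    refine Submodule.span_induction (p := fun f _ => ∃ δ : Derivation ℂ K K,
      (∀ r ∈ R, δ r = 0) ∧ f = lg δ ∧ δ x = 0) ?_ ?_ ?_ ?_ hf
    · rintro g ⟨⟨δ, h1, h2⟩, hg⟩
      refine ⟨δ, h1, h2, ?_⟩
      by_contra hx0
      choose c hc using hg
      obtain ⟨i, j, hij⟩ := hcon δ (Matrix.of fun i j => c (i, j)) h1 hx0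
      apply hij
      have e1 : Y * X.map δ = Matrix.of fun i j => algebraMap ℂ K (c (i, j)) := by
        ext i j
        rw [Matrix.of_apply, ← hc (i, j), h2, hlg]
      have e2 : X.map δ = X * (Matrix.of fun i j => algebraMap ℂ K (c (i, j))) := by
        rw [← e1, ← mul_assoc, hF.inv, one_mul]
      have e3 := congrFun (congrFun e2 i) j
      rw [Matrix.map_apply, Matrix.mul_apply] at e3
      exact e3
    · exact ⟨0, fun r _ => rfl, hlg_zero.symm, rfl⟩
    · rintro f g _ _ ⟨δ, h1, h2, h3⟩ ⟨δ', h1', h2', h3'⟩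
      refine ⟨δ + δ', fun r hr => ?_, ?_, ?_⟩
      · rw [Derivation.add_apply, h1 r hr, h1' r hr, add_zero]
      · rw [h2, h2', hlg_add]
      · rw [Derivation.add_apply, h3, h3', add_zero]
    · rintro k f _ ⟨δ, h1, h2, h3⟩
      refine ⟨k • δ, fun r hr => ?_, ?_, ?_⟩
      · rw [Derivation.smul_apply, h1 r hr, smul_zero]
      · rw [h2, hlg_smul]
      · rw [Derivation.smul_apply, h3, smul_zero]
  obtain ⟨δ1, h1, h2, h3⟩ := hspan _ hdesc
  obtain ⟨δ', hδ'⟩ : ∃ δ' : Derivation ℂ K K, δ' = δ0 + (-1 : K) • δ1 := ⟨_, rfl⟩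
  have hδ'R : ∀ r ∈ R, δ' r = 0 := by
    intro r hr
    rw [hδ', Derivation.add_apply, Derivation.smul_apply, hδ0R r hr, h1 r hr, smul_zero, add_zero]
  have hδ'x : δ' x = 1 := by
    rw [hδ', Derivation.add_apply, Derivation.smul_apply, hδ0x, h3, smul_zero, add_zero]
  have hlg' : lg δ' = 0 := by
    rw [hδ', hlg_add, hlg_smul, ← h2, neg_one_smul, add_neg_cancel]
  have hYδ : Y * X.map δ' = 0 := by
    ext i j
    have := congrFun hlg' (i, j)
    rw [hlg] at this
    exact this
  have hXδ : X.map δ' = 0 := by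
    calc X.map δ' = X * (Y * X.map δ') := by rw [← mul_assoc, hF.inv, one_mul]
      _ = 0 := by rw [hYδ, mul_zero]
  have hYδ' : Y.map δ' = 0 := by
    rw [der_inv δ' hF.inv, hXδ, mul_zero, zero_mul, neg_zero]
  -- the kernel
  let ker : Subalgebra ℂ K :=
    { carrier := {a | δ' a = 0}
      mul_mem' := by
        intro a b ha hb
        show δ' (a * b) = 0
        have ha' : δ' a = 0 := ha
        have hb' : δ' b = 0 := hb
        rw [δ'.leibniz, ha', hb', smul_zero, smul_zero, add_zero]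
      add_mem' := by
        intro a b ha hb
        show δ' (a + b) = 0
        have ha' : δ' a = 0 := ha
        have hb' : δ' b = 0 := hb
        rw [map_add, ha', hb', add_zero]
      algebraMap_mem' := fun c => δ'.map_algebraMap c }
  have hker : mat R X Y ≤ ker := by
    unfold mat
    refine sup_le (fun r hr => hδ'R r hr) (Algebra.adjoin_le ?_)
    rintro a ⟨i, j, h | h⟩
    · rw [h]
      exact congrFun (congrFun hXδ i) j
    · rw [h]
      exact congrFun (congrFun hYδ' i) j
  have hfin := der_alg δ' (fun s hs => hker hs) hx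
  rw [hδ'x] at hfin
  exact one_ne_zero hfin

end Pool.Agent.Y987.IR
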